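import Pool.Agent.Bqp.GTree

set_option autoImplicit false

namespace Pool.Agent.Results.MP_6bb564_co.GluedPatches

open Pool.Agent.Bqp

/-- For all `p` and `d` the graphs of depth at most `d` over assemblies of at most `p` rectangular
arrays are better-quasi-ordered by the minor relation. -/
theorem result (p d : ℕ) : BQO (fun G => PatchTree p d Empty ⟨G, fun _ l => l.elim⟩) :=
  patchTree_bqo p d

end Pool.Agent.Results.MP_6bb564_co.GluedPatches
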