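import Pool.Agent.Bqp.PortArr

set_option autoImplicit false

namespace Pool.Agent.Results.MP_6bb564_co.PortTrees

open Pool.Agent.Bqp Pool.Agent.Bqp.Sky Pool.Agent.Bqp.Port

/-- If the class `T` of tiles and the class `B` of graphs with root ports are
better-quasi-ordered by the minor relation which respects the ports, then the graphs with `k`
apices over the members of the least class which contains `B` and all linked strips of tiles in
`T` and of array tiles with pieces of the class are better-quasi-ordered by the minor relation. -/
theorem result (k p : ℕ) (T : Tile (Fin k) (AQ p) → Prop) (B : PG (Fin k) → Prop)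
    (hT : Bqr TileMinor T) (hB : Bqr TileMinor B) :
    BQO (UnionOf (PortGraph (fun S => T S ∨ ArrTile S) B)) :=
  arr_bqo hT hB

end Pool.Agent.Results.MP_6bb564_co.PortTrees
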