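import Pool.Agent.Bqp.Prism

set_option autoImplicit false

namespace Pool.Agent.Results.MP_6bb564_co.SandwichedFamilies

open Pool.Agent.Bqp

/-- Classes of planar graphs of unbounded tree-width that are bqo under minors. -/
theorem result (D : FG → Prop) (hD : ∀ A, D A → ∃ N, ∀ B, D B → N ≤ B.1 → Minor A B)
    (S : FG → ℕ → FG)
    (hS : ∀ T T' : FG, ∀ n n' : ℕ, Minor T T' → n ≤ n' → Minor (S T n) (S T' n'))
    (F : ℕ → ℕ) :
    BQO (UnionOf (fun K => Planar K ∧ (D K ∨
      ∃ T n, D T ∧ T.1 ≤ n ∧ Minor (S T n) K ∧ Minor K (S T (F n))))) := by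
  apply union_closure
  refine bqo_mono (fun G hG => hG.2) (or_bqo (omega_bqo hD) ?_)
  exact sandwich D (omega_bqo hD) S hS F

end Pool.Agent.Results.MP_6bb564_co.SandwichedFamilies
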