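import Pool.Agent.Bqp.Prism

set_option autoImplicit false

namespace Pool.Agent.Results.MP_6bb564_co.SlowRichness

open Pool.Agent.Bqp

/-- The planar graphs are bqo if and only if the connected planar graphs of slowly growing
richness are. -/
theorem result (h : ℕ → ℕ) (hh : Filter.Tendsto h Filter.atTop Filter.atTop) :
    BQO Planar ↔
      BQO (fun K => Planar K ∧ K.2.Connected ∧ ¬ Rich Planar (h K.1) K) := by
  refine ⟨fun hP => bqo_mono (fun G hG => hG.1) hP, fun hP => ?_⟩
  have h1 : BQO (fun K => (Planar K ∧ K.2.Connected) ∧ Rich Planar (h K.1) K) :=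
    bqo_mono (fun K hK => ⟨hK.1.1, hK.2⟩) (rich_bqo Planar h hh)
  have h2 : BQO (fun K => (Planar K ∧ K.2.Connected) ∧ ¬ Rich Planar (h K.1) K) :=
    bqo_mono (fun K hK => ⟨hK.1.1, hK.1.2, hK.2⟩) hP
  have h3 : BQO (fun K => Planar K ∧ K.2.Connected) := reduction _ _ h1 h2
  refine bqo_mono (fun G hG => ?_) (union_closure _ h3)
  exact union_mono (fun K hK => ⟨planar_minor hK.2 hG, hK.1⟩) G (components G)

end Pool.Agent.Results.MP_6bb564_co.SlowRichness
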